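import Pool.Agent.J4H44.CP.Main

set_option autoImplicit false

/-!
# Both cone conjectures for `(A × F_1 × … × F_k) / G` are reduced to the factors `F_i`

Let `A = V / Λ` be an abelian variety and `F = F_1 × … × F_k` a product of normal projective varieties,
`ℚ`-factorial with free class groups, with `Cl(F) = ⨁ Cl(F_i)`; let `X = (A × F) / G` be a projective
quotient, where the finite group `G` acts diagonally, by affine transformations on `A` and by
automorphisms (for part (b): pseudo-automorphisms) of `F`, which may permute the factors. The group `G`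
may have fixed points and fixed divisors; there is no condition on the canonical class of `X`.

(a) If the weak form of part (a) of the conjecture holds for each `F_i`, that is, if the translates of a
rational polyhedral cone in `Nef^e(F_i)` under some group `Ψ'_i` of automorphisms of `F_i` cover
`Nef^e(F_i)`, then some rational polyhedral cone is a fundamental domain for the action of `Aut(X)` on
`Nef^e(X)`, and `Nef^e(X)` is the convex hull `Nef^+(X)` of the rational nef classes.

(b) If the weak form of part (b) holds for each `F_i`, for some group `Ψ'_i` of pseudo-automorphisms of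
`F_i`, then some rational polyhedral cone is a fundamental domain for the action of `PsAut(X)` on
`Mov^e(X)`, and `Mov^e(X)` is the convex hull `Mov^+(X)` of the rational classes in the closed movable
cone.

If only the interiors of the cones of the `F_i` are covered, the same is true for `Nef^+(X)` and
`Mov^+(X)`. If `Δ` is an effective divisor with real coefficients on `X` such that `K_X + Δ` is
numerically trivial, and all elements of the group `Ψ` (generated by `G` and the `Ψ'_i`) which act on
`X` preserve the components of `Δ`, then `Aut(X)` and `PsAut(X)` can be replaced by the groups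
`Aut(X, Δ)` and `PsAut(X, Δ)`.

So Q1 for the pairs `(X, Δ)` of this form is reduced to the `F_i`. By Ambro's theorem every klt
Calabi-Yau pair is `(A × F) / G` with `G` acting freely and `F` of irregularity zero. The weak forms are
known for instance for klt Calabi-Yau pairs of dimension two (Totaro), for hyperkähler manifolds
(Markman, Amerik-Verbitsky; for `Mov^+` and `Nef^+`), and, trivially, for Mori dream spaces, e.g. for
varieties of Fano type.

The proof uses the theorems of helper47 behind `MP_9f99c5_ag/AlbaneseFibres` (part (a), one factor,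
with boundary) and `MP_e39d36_ag/BeauvilleBogomolov` (part (b), without boundary, for groups `G` such
that no element acts trivially on `F` and as a reflection on `A`). New here are the boundary and the
reflections in part (b), the products in part (a), the versions without `Δ`, and the lattice `M` in
`IsGroup`, which is needed for the group `Aut(X)` if `G` has fixed divisors. The automorphisms which
are constructed from the units of the endomorphism algebra of `A` preserve every `Δ` with `K_X + Δ`
numerically trivial, but they exist without such a `Δ`. For the products in part (a) one needs that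
the points of `F` are the tuples of points of the `F_i`.

`Part`, `Positive`, `closedF`, `Kind`, `IsVariety`, `HasCover`, `WeakForm`, `BigForm`, `IsProd`, `NS`,
`intX`, `effX`, `closedX`, `PullsBack`, `IsCondition`, `IsGroup`, `HasDomain` and `ratHull` are defined in
`Pool.Agent.J4H44.CP.Defs`; `effConeF`, `real`, `IsAction`, `hat`, `NormalizesP`, `FixedP` and
`IsPullbackP` in `Pool.Agent.J4H47.CG.Defs`; `Cl`, `Grp`, `vert`, `IsQuotient`, `Sheaf`, `EffDiv`,
`NumTrivial`, `N1`, `integral`, `effective`, `semiample`, `movable`, `nefCone`, `movCone`, `effCone` and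
`coneHull` in `Pool.Agent.X324.CF.Defs`; `IsTorusQuotient` in `Pool.Agent.W594.SYZ.Defs2`;
`IsPositiveForm` in `Pool.Agent.W594.SYZ.TQDefs`; `LinGrp`, `Preserves` and `IsFundDomain` in
`Pool.Agent.Y167.Stm`; `cone` in `Pool.Agent.Y167.ConeDef`.
-/

namespace Pool.Agent.Results.MP_ad47bb_ag.AbelianFactor

open Pool.Agent.W594.SYZ2 Pool.Agent.X324.CF Pool.Agent.J4H44.CP
open Pool.Agent.Y167.CC (LinGrp)

/-- Let `t` be one of the parts (a), (b) of the conjecture. Let `F`, with ample class `u` and Cox ring
`R`, be the product of the varieties `F_i`, with ample classes `u' i`, let `Ψ` be a group acting on `F`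
which contains the groups `Ψ' i` acting on the factors, and let `X = (V × F) / Γ` be a projective
quotient of `A × F` by a finite group contained in `Ψ`. Let `Q` be a condition on automorphisms of `X`
which is either empty or follows if an effective divisor `Δ` with `K_X + Δ` numerically trivial is
preserved, where `Δ` is preserved by the elements of `Ψ` which act on `X`; let `𝒢` be the image of the
group of automorphisms (pseudo-automorphisms) of `X` which satisfy `Q`.

If the weak form of the conjecture holds for each `F_i` and the group `Ψ' i`, then `Nef^e(X)`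
(`Mov^e(X)`) has a rational polyhedral fundamental domain for the action of `𝒢` and is equal to
`Nef^+(X)` (`Mov^+(X)`). If for each `i` the translates under `Ψ' i` of a rational polyhedral cone in
the closed cone of `F_i` cover the interior, then `Nef^+(X)` (`Mov^+(X)`) has a rational polyhedral
fundamental domain. -/
theorem result {V R : Type*} [NormedAddCommGroup V] [NormedSpace ℂ V] [FiniteDimensional ℂ V]
    [CommRing R] [IsDomain R] [Algebra ℂ R] {ρ k : ℕ} (t : Part)
    (𝒜 : Cl ρ → Submodule ℂ R) [GradedAlgebra 𝒜] (u : Cl ρ) (Ψ : Subgroup (R ≃ₐ[ℂ] R))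
    (hF : IsVariety t 𝒜 u Ψ)
    {ρ' : Fin k → ℕ} {R' : Fin k → Type*} [∀ i, CommRing (R' i)] [∀ i, IsDomain (R' i)]
    [∀ i, Algebra ℂ (R' i)] (ℬ : ∀ i, Cl (ρ' i) → Submodule ℂ (R' i)) [∀ i, GradedAlgebra (ℬ i)]
    (Ψ' : ∀ i, Subgroup (R' i ≃ₐ[ℂ] R' i)) (p : ∀ i, R' i →ₐ[ℂ] R)
    (d : Cl ρ ≃+ ∀ i, Cl (ρ' i)) (hprod : IsProd 𝒜 Ψ ℬ Ψ' p d)
    (u' : ∀ i, Cl (ρ' i)) (hu : d u = u')
    (Γ : Grp V R) (hX : IsQuotient 𝒜 u Γ) (hΓ : ∀ γ ∈ Γ, γ.2 ∈ Ψ)
    (hproj : ∃ (L : Sheaf 𝒜 Γ) (H : V → V → ℂ), L.IsChern H ∧ IsPositiveForm H)
    (Q : Elt V R → Prop) (hQ : IsCondition 𝒜 Γ Ψ Q)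
    (M : AddSubgroup (NS 𝒜 Γ)) (𝒢 : LinGrp (NS 𝒜 Γ)) (h𝒢 : IsGroup Ψ Q (closedX 𝒜 Γ t u) M 𝒢) :
    ((∀ i, WeakForm t (ℬ i) (u' i) (Ψ' i)) →
      HasDomain 𝒢 (closedX 𝒜 Γ t u ∩ effX 𝒜 Γ) ∧
        closedX 𝒜 Γ t u ∩ effX 𝒜 Γ = ratHull (closedX 𝒜 Γ t u)) ∧
    ((∀ i, BigForm t (ℬ i) (u' i) (Ψ' i)) → HasDomain 𝒢 (ratHull (closedX 𝒜 Γ t u))) :=
  main t hF hu hprod hX hΓ hproj hQ h𝒢

end Pool.Agent.Results.MP_ad47bb_ag.AbelianFactor
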